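import Mathlib

/-!
# Generic lex initial ideals need not be lexsegment in the range `n - s ≤ 1`

Let `k` be an infinite field, `f_1, …, f_s` generic forms of degrees `d_1, …, d_s` in
`k[x_1, …, x_n]`. The question is whether, for `n - s ≤ 1`, the lexicographic initial ideal
`G(n; d_1, …, d_s)` of `(f_1, …, f_s)` is always a lexsegment ideal. The answer is no, over every
infinite field and in every number `n ≥ 4` of variables: for instance `G(4; 2, 2, 4)` is not
lexsegment.

Idea: if two of the forms are quadrics, their resultant with respect to `x_1` is a nonzero quartic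
form in `x_2, …, x_n` lying in the ideal. If `G` were lexsegment, it would have to contain all the
monomials of degree `4` that are divisible by `x_1` and one more monomial, and this is too much:
the degree `4` part of the ideal has dimension at most `∑_{d_i ≤ 4} dim S_{4 - d_i} - 1`
(one Koszul relation).

The file also proves that the generic lex initial ideal exists and is unique.
-/

open MvPolynomial

namespace Pool.Agent.Results.MP_48c274_ag.GenericLexNotLexsegment

universe u v

/-- Exponent vectors of the monomials of degree `e` in `n` variables. -/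
abbrev Expo (n e : ℕ) : Type :=
  {m : Fin n →₀ ℕ // m ∈ (Finset.univ : Finset (Fin n)).finsuppAntidiag e}

/-- Index set of the coordinates of the affine space `A^N`, `N = ∑ i, r_i`: one coordinate for
every form `f_i` and every monomial of degree `d i`. -/
abbrev CoeffIdx (n : ℕ) {s : ℕ} (d : Fin s → ℕ) : Type :=
  Σ i : Fin s, Expo n (d i)

/-- The form `f_i` of degree `d i` whose coefficients are the corresponding coordinates of `a`. -/
noncomputable def form {R : Type u} [CommRing R] {n s : ℕ} {d : Fin s → ℕ}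
    (a : CoeffIdx n d → R) (i : Fin s) : MvPolynomial (Fin n) R :=
  ∑ m : Expo n (d i), monomial m.1 (a ⟨i, m⟩)

/-- The ideal `I_a = (f_1, …, f_s)`. -/
noncomputable def formIdeal {R : Type u} [CommRing R] {n s : ℕ} {d : Fin s → ℕ}
    (a : CoeffIdx n d → R) : Ideal (MvPolynomial (Fin n) R) :=
  Ideal.span (Set.range (form a))

/-- The initial ideal of `I` for the lexicographic order with `x_1 > x_2 > ... > x_n`
(the variables are indexed by `Fin n`, so `X 0 > X 1 > ...`). -/
noncomputable def lexInitialIdeal {R : Type u} [CommRing R] {n : ℕ}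
    (I : Ideal (MvPolynomial (Fin n) R)) : Ideal (MvPolynomial (Fin n) R) :=
  Ideal.span ((MonomialOrder.lex (σ := Fin n)).leadingTerm '' (I : Set (MvPolynomial (Fin n) R)))

/-- `G` is the generic lex initial ideal `G(n; d_1, …, d_s)` over `k`: on the nonempty Zariski
open subset `Φ ≠ 0` of `A^N` the lex initial ideal of `I_a` is equal to `G`. -/
def IsGenericLexInitialIdeal {k : Type u} [Field k] {n s : ℕ} (d : Fin s → ℕ)
    (G : Ideal (MvPolynomial (Fin n) k)) : Prop :=
  ∃ Φ : MvPolynomial (CoeffIdx n d) k, Φ ≠ 0 ∧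
    ∀ a : CoeffIdx n d → k, MvPolynomial.eval a Φ ≠ 0 → lexInitialIdeal (formIdeal a) = G

/-- Lexsegment: for all monomials `u, v` of the same degree with `u ∈ L` and `v` lex larger
than `u`, also `v ∈ L`. -/
def IsLexsegment {k : Type u} [Field k] {n : ℕ} (L : Ideal (MvPolynomial (Fin n) k)) : Prop :=
  ∀ u v : Fin n →₀ ℕ, u.degree = v.degree → toLex u < toLex v →
    monomial u (1 : k) ∈ L → monomial v (1 : k) ∈ L

section Specialisation

variable {σ : Type v} (m : MonomialOrder σ)

theorem degree_map_of_ne {R : Type u} {k : Type u} [CommRing R] [Field k] (φ : R →+* k)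
    (h : MvPolynomial σ R) (hl : φ (m.leadingCoeff h) ≠ 0) :
    m.degree (MvPolynomial.map φ h) = m.degree h := by
  apply m.toSyn.injective
  apply le_antisymm
  · rw [MonomialOrder.degree_le_iff]
    intro c hc
    apply m.le_degree
    rw [mem_support_iff] at hc ⊢
    intro h0
    apply hc
    rw [coeff_map, h0, map_zero]
  · apply m.le_degree
    rw [mem_support_iff, coeff_map]
    exact hl

/-- Leading exponents of a specialised ideal are controlled by a (pseudo) Groebner basis whose
leading coefficients do not vanish under the specialisation. -/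
theorem degree_of_mem_map {R : Type u} {k : Type u} [CommRing R] [Field k] (φ : R →+* k)
    (J : Ideal (MvPolynomial σ R)) (B : Set (MvPolynomial σ R)) (hBJ : B ⊆ J)
    (hB : ∀ h ∈ J, h ≠ 0 → ∃ b ∈ B, m.degree b ≤ m.degree h)
    (hlc : ∀ b ∈ B, φ (m.leadingCoeff b) ≠ 0) :
    ∀ h ∈ J, MvPolynomial.map φ h ≠ 0 → ∃ b ∈ B, m.degree b ≤ m.degree (MvPolynomial.map φ h) := by
  intro h
  induction hd : m.toSyn (m.degree h) using WellFoundedLT.induction generalizing h with
  | ind x ih =>
  intro hJ hne
  subst hd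
  have hh : h ≠ 0 := by rintro rfl; simp at hne
  obtain ⟨b, hbB, hbd⟩ := hB h hJ hh
  by_cases hl : φ (m.leadingCoeff h) = 0
  · set h' := C (m.leadingCoeff b) * h -
      monomial (m.degree h - m.degree b) (m.leadingCoeff h) * b with hh'
    have hmap : MvPolynomial.map φ h' = C (φ (m.leadingCoeff b)) * MvPolynomial.map φ h := by
      simp [hh', hl]
    have hJ' : h' ∈ J := J.sub_mem (J.mul_mem_left _ hJ) (J.mul_mem_left _ (hBJ hbB))
    have hne' : MvPolynomial.map φ h' ≠ 0 := by
      rw [hmap]
      exact mul_ne_zero (by rw [Ne, C_eq_zero]; exact hlc b hbB) hne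
    have hne'' : h' ≠ 0 := by rintro h0; rw [h0] at hne'; simp at hne'
    have hle : m.toSyn (m.degree h') ≤ m.toSyn (m.degree h) := by
      apply le_trans MonomialOrder.degree_sub_le
      apply sup_le
      · apply le_trans MonomialOrder.degree_mul_le
        rw [MonomialOrder.degree_C, zero_add]
      · apply le_trans MonomialOrder.degree_mul_le
        rw [map_add]
        calc _ ≤ m.toSyn (m.degree h - m.degree b) + m.toSyn (m.degree b) := by
              gcongr
              exact MonomialOrder.degree_monomial_le _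
          _ = m.toSyn (m.degree h) := by rw [← map_add, tsub_add_cancel_of_le hbd]
    have hcoeff : h'.coeff (m.degree h) = 0 := by
      rw [hh', coeff_sub, coeff_C_mul]
      have : m.degree h = (m.degree h - m.degree b) + m.degree b := (tsub_add_cancel_of_le hbd).symm
      conv_lhs => 
        rw [show (monomial (m.degree h - m.degree b) (m.leadingCoeff h) * b).coeff (m.degree h)
          = (monomial (m.degree h - m.degree b) (m.leadingCoeff h) * b).coeff
            ((m.degree h - m.degree b) + m.degree b) by rw [← this]]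
      rw [coeff_monomial_mul]
      change m.leadingCoeff b * m.leadingCoeff h - m.leadingCoeff h * m.leadingCoeff b = 0
      ring
    have hlt : m.toSyn (m.degree h') < m.toSyn (m.degree h) := by
      apply lt_of_le_of_ne hle
      intro heq
      have heq' := m.toSyn.injective heq
      rw [← heq'] at hcoeff
      exact (MonomialOrder.leadingCoeff_ne_zero_iff.mpr hne'') hcoeff
    obtain ⟨b', hb', hle'⟩ := ih _ hlt h' rfl hJ' hne'
    refine ⟨b', hb', ?_⟩
    rw [hmap] at hle'
    rwa [MonomialOrder.degree_mul (by rw [Ne, C_eq_zero]; exact hlc b hbB) hne,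
      MonomialOrder.degree_C, zero_add] at hle'
  · refine ⟨b, hbB, ?_⟩
    rwa [degree_map_of_ne m φ h hl]

end Specialisation

theorem exists_finset_dominating {n : ℕ} (E : Set (Fin n →₀ ℕ)) :
    ∃ F : Finset (Fin n →₀ ℕ), (F : Set _) ⊆ E ∧ ∀ e ∈ E, ∃ f ∈ F, f ≤ e := by
  have hpwo := Set.isPWO_of_wellQuasiOrderedLE E
  have hfin := (setOfPred_minimal_antichain (· ∈ E)).finite_of_partiallyWellOrderedOn
    (hpwo.mono (setOfPred_minimal_subset _))
  refine ⟨hfin.toFinset, ?_, ?_⟩
  · intro x hx
    rw [Set.Finite.coe_toFinset] at hx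
    exact hx.1
  · intro e he
    obtain ⟨z, hz, hz'⟩ := hpwo.exists_le_minimal he
    exact ⟨z, by rw [Set.Finite.mem_toFinset]; exact hz', hz⟩

section Existence

variable {k : Type u} [Field k] {n s : ℕ} {d : Fin s → ℕ}

theorem map_form (a : CoeffIdx n d → k) (i : Fin s) :
    MvPolynomial.map (MvPolynomial.eval a) (form (fun j : CoeffIdx n d =>
      (X j : MvPolynomial (CoeffIdx n d) k)) i) = form a i := by
  simp [form, map_sum, map_monomial]

theorem map_formIdeal (a : CoeffIdx n d → k) :
    (formIdeal (fun j : CoeffIdx n d => (X j : MvPolynomial (CoeffIdx n d) k))).map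
      (MvPolynomial.map (MvPolynomial.eval a)) = formIdeal a := by
  rw [formIdeal, formIdeal, Ideal.map_span]
  congr 1
  rw [← Set.range_comp]
  congr 1
  funext i
  exact map_form a i

/-- The generic lex initial ideal exists. -/
theorem exists_isGenericLexInitialIdeal (d : Fin s → ℕ) :
    ∃ G : Ideal (MvPolynomial (Fin n) k), IsGenericLexInitialIdeal d G := by
  classical
  let J : Ideal (MvPolynomial (Fin n) (MvPolynomial (CoeffIdx n d) k)) :=
    formIdeal (fun j : CoeffIdx n d => (X j : MvPolynomial (CoeffIdx n d) k))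
  let E : Set (Fin n →₀ ℕ) :=
    {e | ∃ h ∈ J, h ≠ 0 ∧ (MonomialOrder.lex (σ := Fin n)).degree h = e}
  obtain ⟨F, hFE, hF⟩ := exists_finset_dominating E
  have hb : ∀ e : Fin n →₀ ℕ, ∃ b : MvPolynomial (Fin n) (MvPolynomial (CoeffIdx n d) k),
      e ∈ F → b ∈ J ∧ b ≠ 0 ∧ (MonomialOrder.lex (σ := Fin n)).degree b = e := by
    intro e
    by_cases he : e ∈ F
    · obtain ⟨h, h1, h2, h3⟩ := hFE he
      exact ⟨h, fun _ => ⟨h1, h2, h3⟩⟩
    · exact ⟨0, fun h => absurd h he⟩
  choose b hb using hb
  refine ⟨Ideal.span ((fun e => monomial e (1 : k)) '' (F : Set (Fin n →₀ ℕ))),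
    ∏ e ∈ F, (MonomialOrder.lex (σ := Fin n)).leadingCoeff (b e), ?_, ?_⟩
  · rw [Finset.prod_ne_zero_iff]
    intro e he
    exact MonomialOrder.leadingCoeff_ne_zero_iff.mpr (hb e he).2.1
  · intro a ha
    rw [map_prod, Finset.prod_ne_zero_iff] at ha
    have hsurj : Function.Surjective (MvPolynomial.map (σ := Fin n) (MvPolynomial.eval a)) := by
      apply MvPolynomial.map_surjective
      intro c
      exact ⟨C c, by simp⟩
    apply le_antisymm
    · rw [lexInitialIdeal, Ideal.span_le]
      rintro _ ⟨r, hr, rfl⟩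
      by_cases hr0 : r = 0
      · subst hr0
        simp
      rw [SetLike.mem_coe, ← map_formIdeal a,
        Ideal.mem_map_iff_of_surjective _ hsurj] at hr
      obtain ⟨h, hhJ, rfl⟩ := hr
      obtain ⟨_, ⟨e, he, rfl⟩, hle⟩ := degree_of_mem_map (MonomialOrder.lex (σ := Fin n))
        (MvPolynomial.eval a) J (b '' (F : Set (Fin n →₀ ℕ)))
        (by rintro _ ⟨e, he, rfl⟩; exact (hb e he).1)
        (by
          intro h hh hh0
          obtain ⟨f, hf, hfle⟩ := hF _ ⟨h, hh, hh0, rfl⟩
          exact ⟨b f, ⟨f, hf, rfl⟩, by rw [(hb f hf).2.2]; exact hfle⟩)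
        (by rintro _ ⟨e, he, rfl⟩; exact ha e he) h hhJ hr0
      rw [(hb e he).2.2] at hle
      set r := MvPolynomial.map (MvPolynomial.eval a) h with hrdef
      have : (MonomialOrder.lex (σ := Fin n)).leadingTerm r =
          monomial ((MonomialOrder.lex (σ := Fin n)).degree r - e)
            ((MonomialOrder.lex (σ := Fin n)).leadingCoeff r) * monomial e 1 := by
        rw [MonomialOrder.leadingTerm, monomial_mul, mul_one, tsub_add_cancel_of_le hle]
      rw [SetLike.mem_coe, this]
      exact Ideal.mul_mem_left _ _ (Ideal.subset_span ⟨e, he, rfl⟩)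
    · rw [Ideal.span_le]
      rintro _ ⟨e, he, rfl⟩
      have h1 : MvPolynomial.map (MvPolynomial.eval a) (b e) ∈ formIdeal a := by
        rw [← map_formIdeal a]
        exact Ideal.mem_map_of_mem _ (hb e he).1
      have h2 := degree_map_of_ne (MonomialOrder.lex (σ := Fin n)) (MvPolynomial.eval a) (b e)
        (ha e he)
      have h3 : (MonomialOrder.lex (σ := Fin n)).leadingTerm
          (MvPolynomial.map (MvPolynomial.eval a) (b e)) ∈ lexInitialIdeal (formIdeal a) :=
        Ideal.subset_span ⟨_, h1, rfl⟩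
      have h4 : (MonomialOrder.lex (σ := Fin n)).leadingTerm
          (MvPolynomial.map (MvPolynomial.eval a) (b e)) =
          monomial e (MvPolynomial.eval a ((MonomialOrder.lex (σ := Fin n)).leadingCoeff (b e))) := by
        rw [MonomialOrder.leadingTerm, h2, (hb e he).2.2, MonomialOrder.leadingCoeff, h2, coeff_map]
        rfl
      rw [h4] at h3
      have h5 := Ideal.mul_mem_left _ (C ((MvPolynomial.eval a
        ((MonomialOrder.lex (σ := Fin n)).leadingCoeff (b e)))⁻¹)) h3
      rw [C_mul_monomial, inv_mul_cancel₀ (ha e he)] at h5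
      exact h5

/-- The generic lex initial ideal is unique, since the field is infinite. -/
theorem IsGenericLexInitialIdeal.unique [Infinite k] {G G' : Ideal (MvPolynomial (Fin n) k)}
    (hG : IsGenericLexInitialIdeal d G) (hG' : IsGenericLexInitialIdeal d G') : G' = G := by
  obtain ⟨Φ, h0, h⟩ := hG
  obtain ⟨Ψ, h0', h'⟩ := hG'
  obtain ⟨a, ha⟩ : ∃ a, MvPolynomial.eval a (Φ * Ψ) ≠ 0 := by
    by_contra hcon
    push Not at hcon
    exact mul_ne_zero h0 h0' (MvPolynomial.funext (by simpa using hcon))
  rw [map_mul] at ha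
  rw [← h a (left_ne_zero_of_mul ha), ← h' a (right_ne_zero_of_mul ha)]

end Existence


section Resultant

variable {R : Type u} [CommRing R] {n : ℕ}

/-- The `j`-th coefficient of `f` as a polynomial in the first variable. -/
noncomputable def cf (f : MvPolynomial (Fin (n + 1)) R) (j : ℕ) : MvPolynomial (Fin n) R :=
  (MvPolynomial.finSuccEquiv R n f).coeff j

/-- The resultant, with respect to the first variable, of two polynomials of degree at most two
in the first variable. -/
noncomputable def res2 (f g : MvPolynomial (Fin (n + 1)) R) : MvPolynomial (Fin n) R :=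
  (cf f 2 * cf g 0 - cf g 2 * cf f 0) ^ 2 -
    (cf f 2 * cf g 1 - cf g 2 * cf f 1) * (cf f 1 * cf g 0 - cf g 1 * cf f 0)

theorem finSuccEquiv_rename_succ (p : MvPolynomial (Fin n) R) :
    MvPolynomial.finSuccEquiv R n (rename Fin.succ p) = Polynomial.C p := by
  induction p using MvPolynomial.induction_on with
  | C a => rw [rename_C]; simp [finSuccEquiv_apply]
  | add p q hp hq => rw [map_add, map_add, hp, hq, Polynomial.C_add]
  | mul_X p i hp => rw [map_mul, map_mul, hp, rename_X, finSuccEquiv_X_succ, Polynomial.C_mul]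

theorem cf_homogeneous {f : MvPolynomial (Fin (n + 1)) R} (hf : f.IsHomogeneous 2) (j e : ℕ)
    (h : j + e = 2) : (cf f j).IsHomogeneous e :=
  hf.finSuccEquiv_coeff_isHomogeneous j e h

theorem finSuccEquiv_eq_quadratic {f : MvPolynomial (Fin (n + 1)) R} (hf : f.IsHomogeneous 2) :
    MvPolynomial.finSuccEquiv R n f = Polynomial.C (cf f 2) * Polynomial.X ^ 2 +
      Polynomial.C (cf f 1) * Polynomial.X + Polynomial.C (cf f 0) := by
  ext1 j
  rcases j with _ | _ | _ | j
  · simp [cf]
  · simp [cf, Polynomial.coeff_C]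
  · simp [cf]
  · have h0 : (MvPolynomial.finSuccEquiv R n f).coeff (j + 3) = 0 := by
      ext m
      rw [finSuccEquiv_coeff_coeff, coeff_zero]
      apply hf.coeff_eq_zero
      intro h
      have h2 := congrArg (fun x => x) h
      rw [Finsupp.degree_eq_sum, Fin.sum_univ_succ] at h2
      simp at h2
      omega
    rw [h0]
    simp

theorem res2_mem {f g : MvPolynomial (Fin (n + 1)) R} (hf : f.IsHomogeneous 2)
    (hg : g.IsHomogeneous 2) (I : Ideal (MvPolynomial (Fin (n + 1)) R)) (hfI : f ∈ I)
    (hgI : g ∈ I) : rename Fin.succ (res2 f g) ∈ I := by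
  have key : rename Fin.succ (res2 f g) =
      (rename Fin.succ (cf f 2 * cf g 0 - cf g 2 * cf f 0)) *
        (rename Fin.succ (cf f 2) * g - rename Fin.succ (cf g 2) * f) -
      (rename Fin.succ (cf f 2 * cf g 1 - cf g 2 * cf f 1)) *
        ((rename Fin.succ (cf f 2) * X 0 + rename Fin.succ (cf f 1)) * g -
          (rename Fin.succ (cf g 2) * X 0 + rename Fin.succ (cf g 1)) * f) := by
    apply (MvPolynomial.finSuccEquiv R n).injective
    simp only [map_sub, map_mul, map_add, finSuccEquiv_rename_succ, finSuccEquiv_X_zero,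
      finSuccEquiv_eq_quadratic hf, finSuccEquiv_eq_quadratic hg, res2, map_pow]
    ring
  rw [key]
  refine I.sub_mem (I.mul_mem_left _ (I.sub_mem (I.mul_mem_left _ hgI) (I.mul_mem_left _ hfI)))
    (I.mul_mem_left _ (I.sub_mem (I.mul_mem_left _ hgI) (I.mul_mem_left _ hfI)))

theorem res2_homogeneous {f g : MvPolynomial (Fin (n + 1)) R} (hf : f.IsHomogeneous 2)
    (hg : g.IsHomogeneous 2) : (res2 f g).IsHomogeneous 4 := by
  have f2 := cf_homogeneous hf 2 0 rfl
  have f1 := cf_homogeneous hf 1 1 rfl
  have f0 := cf_homogeneous hf 0 2 rfl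
  have g2 := cf_homogeneous hg 2 0 rfl
  have g1 := cf_homogeneous hg 1 1 rfl
  have g0 := cf_homogeneous hg 0 2 rfl
  exact (((f2.mul g0).sub (g2.mul f0)).pow 2).sub
    (((f2.mul g1).sub (g2.mul f1)).mul ((f1.mul g0).sub (g1.mul f0)))

theorem cf_map {S : Type v} [CommRing S] (φ : R →+* S) (f : MvPolynomial (Fin (n + 1)) R) (j : ℕ) :
    cf (MvPolynomial.map φ f) j = MvPolynomial.map φ (cf f j) := by
  ext m
  rw [cf, finSuccEquiv_coeff_coeff, coeff_map, coeff_map, cf, finSuccEquiv_coeff_coeff]

theorem res2_map {S : Type v} [CommRing S] (φ : R →+* S) (f g : MvPolynomial (Fin (n + 1)) R) :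
    res2 (MvPolynomial.map φ f) (MvPolynomial.map φ g) = MvPolynomial.map φ (res2 f g) := by
  simp only [res2, cf_map, map_sub, map_mul, map_pow]

end Resultant

section Counting

variable {k : Type u} [Field k] {n s : ℕ} {d : Fin s → ℕ}

theorem mem_expo {e : ℕ} {m : Fin n →₀ ℕ} :
    m ∈ (Finset.univ : Finset (Fin n)).finsuppAntidiag e ↔ m.degree = e := by
  rw [Finset.mem_finsuppAntidiag, Finsupp.degree_eq_sum]
  simp

theorem card_expo (n e : ℕ) : Fintype.card (Expo n e) = (n + e - 1).choose e := by
  rw [Fintype.card_coe, Finset.card_finsuppAntidiag_nat_eq_choose]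
  simp

theorem form_homogeneous {R : Type u} [CommRing R] (a : CoeffIdx n d → R) (i : Fin s) :
    (form a i).IsHomogeneous (d i) := by
  apply IsHomogeneous.sum
  intro m _
  exact isHomogeneous_monomial _ (mem_expo.mp m.2)

/-- Linearly independent: polynomials with pairwise different leading exponents. -/
theorem linearIndependent_of_degree_injective {σ : Type v} (m : MonomialOrder σ) {ι : Type*}
    (w : ι → MvPolynomial σ k) (hw : ∀ i, w i ≠ 0)
    (hinj : Function.Injective fun i => m.degree (w i)) : LinearIndependent k w := by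
  classical
  rw [linearIndependent_iff']
  intro S c hc
  by_contra hcon
  push Not at hcon
  obtain ⟨i, hiS, hi⟩ := hcon
  obtain ⟨j, hj, hmax⟩ := (S.filter fun i => c i ≠ 0).exists_max_image
    (fun i => m.toSyn (m.degree (w i))) ⟨i, by simp [hiS, hi]⟩
  rw [Finset.mem_filter] at hj
  have h1 := congrArg (coeff (m.degree (w j))) hc
  rw [coeff_sum, coeff_zero, Finset.sum_eq_single j] at h1
  · rw [coeff_smul, smul_eq_mul] at h1
    exact mul_ne_zero hj.2 (MonomialOrder.leadingCoeff_ne_zero_iff.mpr (hw j)) h1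
  · intro l hl hlj
    rw [coeff_smul, smul_eq_mul]
    by_cases hcl : c l = 0
    · rw [hcl, zero_mul]
    · have h2 := hmax l (by rw [Finset.mem_filter]; exact ⟨hl, hcl⟩)
      have h3 : m.toSyn (m.degree (w l)) < m.toSyn (m.degree (w j)) := by
        apply lt_of_le_of_ne h2
        intro h4
        exact hlj (hinj (m.toSyn.injective h4))
      rw [MonomialOrder.coeff_eq_zero_of_lt h3, mul_zero]
  · intro h; exact absurd hj.1 h

/-- The index set of the spanning family of the degree `4` part of `I_a`. -/
abbrev GenIdx (n : ℕ) {s : ℕ} (d : Fin s → ℕ) : Type :=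
  Σ i : {i : Fin s // d i ≤ 4}, Expo n (4 - d i.1)

/-- The linear map sending a coefficient vector to `∑ c_{i,m} x^m f_i`. -/
noncomputable def genMap (a : CoeffIdx n d → k) :
    (GenIdx n d → k) →ₗ[k] MvPolynomial (Fin n) k :=
  Fintype.linearCombination k
    (fun j : GenIdx n d => monomial j.2.1 (1 : k) * form a j.1.1)

theorem genMap_apply (a : CoeffIdx n d → k) (c : GenIdx n d → k) :
    genMap a c = ∑ j : GenIdx n d, c j • (monomial j.2.1 (1 : k) * form a j.1.1) := rfl

theorem homogeneousComponent_mem_range (a : CoeffIdx n d → k) {g : MvPolynomial (Fin n) k}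
    (hg : g ∈ formIdeal a) : homogeneousComponent 4 g ∈ LinearMap.range (genMap a) := by
  classical
  have hgen : ∀ (i : Fin s) (q : MvPolynomial (Fin n) k),
      homogeneousComponent 4 (q * form a i) ∈ LinearMap.range (genMap a) := by
    intro i q
    induction q using MvPolynomial.induction_on' with
    | monomial m c =>
      have h1 : (monomial m c * form a i).IsHomogeneous (m.degree + d i) :=
        (isHomogeneous_monomial c rfl).mul (form_homogeneous a i)
      rw [homogeneousComponent_of_mem h1]
      split_ifs with h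
      · have hd : d i ≤ 4 := by omega
        have hm : m ∈ (Finset.univ : Finset (Fin n)).finsuppAntidiag (4 - d i) := by
          rw [mem_expo]; omega
        refine ⟨Pi.single (⟨⟨i, hd⟩, ⟨m, hm⟩⟩ : GenIdx n d) c, ?_⟩
        rw [genMap_apply, Finset.sum_eq_single (⟨⟨i, hd⟩, ⟨m, hm⟩⟩ : GenIdx n d)]
        · rw [Pi.single_eq_same, ← smul_mul_assoc, smul_monomial, smul_eq_mul, mul_one]
        · intro j _ hj
          rw [Pi.single_eq_of_ne hj, zero_smul]
        · intro h; exact absurd (Finset.mem_univ _) h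
      · exact Submodule.zero_mem _
    | add p q hp hq =>
      rw [add_mul, map_add]
      exact Submodule.add_mem _ hp hq
  rw [formIdeal] at hg
  obtain ⟨c, hc⟩ := (Ideal.mem_span_range_iff_exists_fun).mp hg
  rw [← hc, map_sum]
  exact Submodule.sum_mem _ fun i _ => hgen i (c i)

end Counting

section Main

variable {k : Type u} [Field k] {n s : ℕ} {d : Fin s → ℕ}

theorem sum_monomial_coeff {e : ℕ} {p : MvPolynomial (Fin n) k} (hp : p.IsHomogeneous e) :
    ∑ m : Expo n e, monomial m.1 (coeff m.1 p) = p := by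
  classical
  ext m
  rw [coeff_sum]
  by_cases hm : m.degree = e
  · rw [Finset.sum_eq_single (⟨m, mem_expo.mpr hm⟩ : Expo n e)]
    · rw [coeff_monomial, if_pos rfl]
    · intro j _ hj
      rw [coeff_monomial, if_neg]
      intro h
      exact hj (Subtype.ext h)
    · intro h; exact absurd (Finset.mem_univ _) h
  · rw [hp.coeff_eq_zero hm]
    apply Finset.sum_eq_zero
    intro j _
    rw [coeff_monomial, if_neg]
    intro h
    exact hm (by rw [← h]; exact mem_expo.mp j.2)

theorem ker_genMap_ne_bot (a : CoeffIdx n d → k) {i0 i1 : Fin s} (hne : i0 ≠ i1)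
    (h0 : d i0 = 2) (h1 : d i1 = 2) (hf : form a i0 ≠ 0 ∨ form a i1 ≠ 0) :
    LinearMap.ker (genMap a) ≠ ⊥ := by
  classical
  set f0 := form a i0 with hf0
  set f1 := form a i1 with hf1
  have H0 : f0.IsHomogeneous 2 := h0 ▸ form_homogeneous a i0
  have H1 : f1.IsHomogeneous 2 := h1 ▸ form_homogeneous a i1
  let c : GenIdx n d → k := fun j =>
    if j.1.1 = i0 then coeff j.2.1 f1 else if j.1.1 = i1 then - coeff j.2.1 f0 else 0
  have hc : genMap a c = 0 := by
    rw [genMap_apply, Fintype.sum_sigma]
    have hi0 : d i0 ≤ 4 := by omega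
    have hi1 : d i1 ≤ 4 := by omega
    rw [Finset.sum_eq_add (⟨i0, hi0⟩ : {i : Fin s // d i ≤ 4}) (⟨i1, hi1⟩ : {i : Fin s // d i ≤ 4})]
    · have e0 : ∑ m : Expo n (4 - d i0), c ⟨⟨i0, hi0⟩, m⟩ • (monomial m.1 (1 : k) * form a i0) =
          f1 * f0 := by
        have : ∀ m : Expo n (4 - d i0), c ⟨⟨i0, hi0⟩, m⟩ • (monomial m.1 (1 : k) * form a i0) =
            monomial m.1 (coeff m.1 f1) * f0 := by
          intro m
          simp only [c, if_true]
          rw [← smul_mul_assoc, smul_monomial, smul_eq_mul, mul_one]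
        rw [Finset.sum_congr rfl fun m _ => this m, ← Finset.sum_mul,
          sum_monomial_coeff (by rw [h0]; exact H1)]
      have e1 : ∑ m : Expo n (4 - d i1), c ⟨⟨i1, hi1⟩, m⟩ • (monomial m.1 (1 : k) * form a i1) =
          - (f0 * f1) := by
        have : ∀ m : Expo n (4 - d i1), c ⟨⟨i1, hi1⟩, m⟩ • (monomial m.1 (1 : k) * form a i1) =
            - (monomial m.1 (coeff m.1 f0) * f1) := by
          intro m
          simp only [c, if_true, if_neg hne.symm]
          rw [neg_smul, ← smul_mul_assoc, smul_monomial, smul_eq_mul, mul_one]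
        rw [Finset.sum_congr rfl fun m _ => this m, Finset.sum_neg_distrib, ← Finset.sum_mul,
          sum_monomial_coeff (by rw [h1]; exact H0)]
      change (∑ m : Expo n (4 - d i0), c ⟨⟨i0, hi0⟩, m⟩ • (monomial m.1 (1 : k) * form a i0)) +
        (∑ m : Expo n (4 - d i1), c ⟨⟨i1, hi1⟩, m⟩ • (monomial m.1 (1 : k) * form a i1)) = 0
      rw [e0, e1]
      ring
    · intro h
      exact hne (congrArg (fun x : {i : Fin s // d i ≤ 4} => x.1) h)
    · rintro ⟨i, hi⟩ _ ⟨hi0', hi1'⟩
      apply Finset.sum_eq_zero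
      intro m _
      have g0 : ¬ (i = i0) := fun h => hi0' (Subtype.ext h)
      have g1 : ¬ (i = i1) := fun h => hi1' (Subtype.ext h)
      simp only [c, if_neg g0, if_neg g1, zero_smul]
    · intro h; exact absurd (Finset.mem_univ _) h
    · intro h; exact absurd (Finset.mem_univ _) h
  rw [Submodule.ne_bot_iff]
  refine ⟨c, hc, ?_⟩
  intro hc0
  have z1 : f1 = 0 := by
    ext m
    rw [coeff_zero]
    by_cases hm : m.degree = 2
    · have := congrFun hc0 ⟨⟨i0, by omega⟩, ⟨m, by
        rw [mem_expo]; change m.degree = 4 - d i0; omega⟩⟩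
      simpa [c] using this
    · exact H1.coeff_eq_zero hm
  have z0 : f0 = 0 := by
    ext m
    rw [coeff_zero]
    by_cases hm : m.degree = 2
    · have := congrFun hc0 ⟨⟨i1, by omega⟩, ⟨m, by
        rw [mem_expo]; change m.degree = 4 - d i1; omega⟩⟩
      simpa [c, hne.symm] using this
    · exact H0.coeff_eq_zero hm
  rcases hf with h | h
  · exact h z0
  · exact h z1

theorem finrank_range_genMap_lt (a : CoeffIdx n d → k) {i0 i1 : Fin s} (hne : i0 ≠ i1)
    (h0 : d i0 = 2) (h1 : d i1 = 2) (hf : form a i0 ≠ 0 ∨ form a i1 ≠ 0) :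
    Module.finrank k (LinearMap.range (genMap a)) < Fintype.card (GenIdx n d) := by
  have h := LinearMap.finrank_range_add_finrank_ker (genMap a)
  rw [Module.finrank_fintype_fun_eq_card] at h
  have hk : 0 < Module.finrank k (LinearMap.ker (genMap a)) := by
    rw [Module.finrank_pos_iff]
    exact (Submodule.nontrivial_iff_ne_bot).mpr (ker_genMap_ne_bot a hne h0 h1 hf)
  omega

theorem card_genIdx (n : ℕ) (d : Fin s → ℕ) : Fintype.card (GenIdx n d) =
    ∑ i ∈ Finset.univ.filter (fun i => d i ≤ 4), (n + 3 - d i).choose (4 - d i) := by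
  rw [Fintype.card_sigma, Finset.sum_subtype (p := fun i : Fin s => d i ≤ 4) _ (by simp)]
  apply Finset.sum_congr rfl
  intro i _
  rw [card_expo]
  congr 1
  have := i.2
  omega

/-- A monomial of degree `4` in the lex initial ideal of `I_a` is the leading monomial of an
element of the degree `4` part of `I_a`. -/
theorem exists_mem_range_degree_eq (a : CoeffIdx n d → k) {e : Fin n →₀ ℕ} (he : e.degree = 4)
    (hmem : monomial e (1 : k) ∈ lexInitialIdeal (formIdeal a)) :
    ∃ w ∈ LinearMap.range (genMap a), w ≠ 0 ∧ (MonomialOrder.lex (σ := Fin n)).degree w = e := by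
  classical
  have hle : lexInitialIdeal (formIdeal a) ≤ Ideal.span ((fun e => monomial e (1 : k)) ''
      {e | ∃ g ∈ formIdeal a, g ≠ 0 ∧ (MonomialOrder.lex (σ := Fin n)).degree g = e}) := by
    rw [lexInitialIdeal, Ideal.span_le]
    rintro _ ⟨g, hg, rfl⟩
    by_cases hg0 : g = 0
    · subst hg0; simp
    · have : (MonomialOrder.lex (σ := Fin n)).leadingTerm g =
          C ((MonomialOrder.lex (σ := Fin n)).leadingCoeff g) *
            monomial ((MonomialOrder.lex (σ := Fin n)).degree g) 1 := by
        rw [MonomialOrder.leadingTerm, C_mul_monomial, mul_one]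
      rw [SetLike.mem_coe, this]
      exact Ideal.mul_mem_left _ _ (Ideal.subset_span ⟨_, ⟨g, hg, hg0, rfl⟩, rfl⟩)
  have h1 := mem_ideal_span_monomial_image.mp (hle hmem) e (by
    rw [mem_support_iff, coeff_monomial, if_pos rfl]; exact one_ne_zero)
  obtain ⟨_, ⟨g, hgI, hg0, rfl⟩, hge⟩ := h1
  set g' := monomial (e - (MonomialOrder.lex (σ := Fin n)).degree g) (1 : k) * g with hg'
  have hg'I : g' ∈ formIdeal a := Ideal.mul_mem_left _ _ hgI
  have hmon : monomial (e - (MonomialOrder.lex (σ := Fin n)).degree g) (1 : k) ≠ 0 := by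
    rw [Ne, monomial_eq_zero]; exact one_ne_zero
  have hg'0 : g' ≠ 0 := mul_ne_zero hmon hg0
  have hg'e : (MonomialOrder.lex (σ := Fin n)).degree g' = e := by
    rw [hg', MonomialOrder.degree_mul hmon hg0, MonomialOrder.degree_monomial, if_neg one_ne_zero,
      tsub_add_cancel_of_le hge]
  have hcoeff : coeff e (homogeneousComponent 4 g') ≠ 0 := by
    rw [coeff_homogeneousComponent, if_pos he]
    have := MonomialOrder.leadingCoeff_ne_zero_iff (m := MonomialOrder.lex (σ := Fin n)).mpr hg'0
    rwa [MonomialOrder.leadingCoeff, hg'e] at this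
  refine ⟨homogeneousComponent 4 g', homogeneousComponent_mem_range a hg'I, ?_, ?_⟩
  · intro h0
    rw [h0, coeff_zero] at hcoeff
    exact hcoeff rfl
  · apply (MonomialOrder.lex (σ := Fin n)).toSyn.injective
    apply le_antisymm
    · rw [MonomialOrder.degree_le_iff]
      intro c hc
      rw [mem_support_iff, coeff_homogeneousComponent] at hc
      have hc' : c ∈ g'.support := by
        rw [mem_support_iff]
        intro h0
        rw [h0] at hc
        simp at hc
      have := (MonomialOrder.lex (σ := Fin n)).le_degree hc'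
      rwa [hg'e] at this
    · exact (MonomialOrder.lex (σ := Fin n)).le_degree (mem_support_iff.mpr hcoeff)

/-- The main step: if the resultant of the two quadrics does not vanish and the dimension count
holds, then the lex initial ideal of `I_a` is not lexsegment. -/
theorem not_isLexsegment_lexInitialIdeal {N : ℕ} {d : Fin s → ℕ}
    (a : CoeffIdx (N + 1) d → k) {i0 i1 : Fin s} (hne : i0 ≠ i1)
    (h0 : d i0 = 2) (h1 : d i1 = 2) (hres : res2 (form a i0) (form a i1) ≠ 0)
    (hnum : Fintype.card (GenIdx (N + 1) d) ≤ Fintype.card (Expo (N + 1) 3) + 1) :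
    ¬ IsLexsegment (lexInitialIdeal (formIdeal a)) := by
  classical
  intro hlex
  have H0 : (form a i0).IsHomogeneous 2 := h0 ▸ form_homogeneous a i0
  have H1 : (form a i1).IsHomogeneous 2 := h1 ▸ form_homogeneous a i1
  set r := rename Fin.succ (res2 (form a i0) (form a i1)) with hr
  have hrI : r ∈ formIdeal a := res2_mem H0 H1 _ (Ideal.subset_span ⟨i0, rfl⟩)
    (Ideal.subset_span ⟨i1, rfl⟩)
  have hr0 : r ≠ 0 := by
    intro h
    apply hres
    apply rename_injective _ (Fin.succ_injective N)
    rw [map_zero]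
    exact h
  have hrhom : r.IsHomogeneous 4 := (res2_homogeneous H0 H1).rename_isHomogeneous
  set m0 := (MonomialOrder.lex (σ := Fin (N + 1))).degree r with hm0
  have hm0s : m0 ∈ r.support := MonomialOrder.degree_mem_support hr0
  have hm0d : m0.degree = 4 := by
    by_contra hcon
    exact (mem_support_iff.mp hm0s) (hrhom.coeff_eq_zero hcon)
  have hm00 : m0 0 = 0 := by
    obtain ⟨u, hu, -⟩ := coeff_rename_ne_zero _ _ _ (mem_support_iff.mp hm0s)
    rw [← hu]
    apply Finsupp.mapDomain_of_notMem_range
    rintro ⟨x, hx⟩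
    exact Fin.succ_ne_zero x hx
  have hm0mem : monomial m0 (1 : k) ∈ lexInitialIdeal (formIdeal a) := by
    have h2 : (MonomialOrder.lex (σ := Fin (N + 1))).leadingTerm r ∈
        lexInitialIdeal (formIdeal a) := Ideal.subset_span ⟨_, hrI, rfl⟩
    have h3 := Ideal.mul_mem_left _
      (C ((MonomialOrder.lex (σ := Fin (N + 1))).leadingCoeff r)⁻¹) h2
    rwa [MonomialOrder.leadingTerm, C_mul_monomial,
      inv_mul_cancel₀ (MonomialOrder.leadingCoeff_ne_zero_iff.mpr hr0)] at h3
  let ex : Option (Expo (N + 1) 3) → (Fin (N + 1) →₀ ℕ) := fun o =>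
    o.elim m0 fun m => m.1 + Finsupp.single 0 1
  have hexdeg : ∀ o, (ex o).degree = 4 := by
    intro o
    rcases o with _ | m
    · exact hm0d
    · change (m.1 + Finsupp.single 0 1).degree = 4
      rw [map_add, mem_expo.mp m.2, Finsupp.degree_single]
  have hexmem : ∀ o, monomial (ex o) (1 : k) ∈ lexInitialIdeal (formIdeal a) := by
    intro o
    rcases o with _ | m
    · exact hm0mem
    · apply hlex m0 (ex (some m)) (by rw [hm0d, hexdeg]) _ hm0mem
      rw [Finsupp.Lex.lt_iff]
      refine ⟨0, fun j hj => absurd hj (Fin.not_lt_zero j), ?_⟩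
      change m0 0 < (m.1 + Finsupp.single 0 1 : Fin (N + 1) →₀ ℕ) 0
      rw [hm00, Finsupp.add_apply, Finsupp.single_eq_same]
      omega
  have hexinj : Function.Injective ex := by
    intro o o' h
    rcases o with _ | m <;> rcases o' with _ | m'
    · rfl
    · exfalso
      have h2 : m0 0 = (m'.1 + Finsupp.single 0 1 : Fin (N + 1) →₀ ℕ) 0 := DFunLike.congr_fun h 0
      rw [hm00, Finsupp.add_apply, Finsupp.single_eq_same] at h2
      omega
    · exfalso
      have h2 : (m.1 + Finsupp.single 0 1 : Fin (N + 1) →₀ ℕ) 0 = m0 0 := DFunLike.congr_fun h 0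
      rw [hm00, Finsupp.add_apply, Finsupp.single_eq_same] at h2
      omega
    · have h2 : m.1 + Finsupp.single 0 1 = m'.1 + Finsupp.single 0 1 := h
      rw [Subtype.ext (add_right_cancel h2)]
  choose w hwr hw0 hwd using fun o => exists_mem_range_degree_eq a (hexdeg o) (hexmem o)
  have hli : LinearIndependent k w := by
    apply linearIndependent_of_degree_injective (MonomialOrder.lex (σ := Fin (N + 1))) w hw0
    intro o o' h
    simp only [hwd] at h
    exact hexinj h
  have hli' : LinearIndependent k (fun o => (⟨w o, hwr o⟩ : LinearMap.range (genMap a))) :=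
    LinearIndependent.of_comp (LinearMap.range (genMap a)).subtype hli
  have hcard := hli'.fintype_card_le_finrank
  have hlt := finrank_range_genMap_lt a hne h0 h1 (by
    by_contra hcon
    push Not at hcon
    apply hres
    rw [hcon.1, hcon.2]
    simp [res2, cf])
  rw [Fintype.card_option] at hcard
  omega

end Main

/-- **Main theorem.** Let `k` be any infinite field, `n ≥ 4`, and let `d_1, …, d_s` be degrees two
of which are equal to `2`, such that `∑_{d_i ≤ 4} dim S_{4 - d_i} ≤ dim S_3 + 1`. Then the generic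
lex initial ideal `G(n; d_1, …, d_s)` exists, is unique, and is not lexsegment. -/
theorem result (k : Type u) [Field k] [Infinite k] (n s : ℕ) (hn : 4 ≤ n) (d : Fin s → ℕ)
    (i₀ i₁ : Fin s) (hne : i₀ ≠ i₁) (h₀ : d i₀ = 2) (h₁ : d i₁ = 2)
    (hd : ∑ i ∈ Finset.univ.filter (fun i => d i ≤ 4), (n + 3 - d i).choose (4 - d i) ≤
      (n + 2).choose 3 + 1) :
    ∃ G : Ideal (MvPolynomial (Fin n) k),
      IsGenericLexInitialIdeal d G ∧ (∀ G', IsGenericLexInitialIdeal d G' → G' = G) ∧
        ¬ IsLexsegment G := by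
  classical
  obtain ⟨G, hG⟩ := exists_isGenericLexInitialIdeal (k := k) (n := n) d
  refine ⟨G, hG, fun G' hG' => hG.unique hG', ?_⟩
  obtain ⟨N, rfl⟩ : ∃ N, n = N + 1 := ⟨n - 1, by omega⟩
  obtain ⟨Φ, hΦ, hΦG⟩ := hG
  -- the universal resultant
  let XX : CoeffIdx (N + 1) d → MvPolynomial (CoeffIdx (N + 1) d) k := fun j => X j
  let Res := res2 (form XX i₀) (form XX i₁)
  have hspec : ∀ a : CoeffIdx (N + 1) d → k,
      res2 (form a i₀) (form a i₁) = MvPolynomial.map (MvPolynomial.eval a) Res := by
    intro a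
    rw [← res2_map, map_form, map_form]
  have hRes : Res ≠ 0 := by
    intro hzero
    -- specialise to `x_0 ^ 2` and `x_1 ^ 2`
    have hN : 0 < N := by omega
    let m0 : Fin (N + 1) →₀ ℕ := Finsupp.single 0 2
    let m1 : Fin (N + 1) →₀ ℕ := Finsupp.single (Fin.succ ⟨0, hN⟩) 2
    let a : CoeffIdx (N + 1) d → k := fun j =>
      if j.1 = i₀ then (if j.2.1 = m0 then 1 else 0) else (if j.2.1 = m1 then 1 else 0)
    have hf0 : form a i₀ = X 0 ^ 2 := by
      rw [X_pow_eq_monomial]
      have hm : m0 ∈ (Finset.univ : Finset (Fin (N + 1))).finsuppAntidiag (d i₀) := by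
        rw [mem_expo, h₀]; exact Finsupp.degree_single _ _
      rw [form, Finset.sum_eq_single (⟨m0, hm⟩ : Expo (N + 1) (d i₀))]
      · simp [a, m0]
      · intro j _ hj
        have : j.1 ≠ m0 := fun h => hj (Subtype.ext h)
        simp [a, this]
      · intro h; exact absurd (Finset.mem_univ _) h
    have hf1 : form a i₁ = X (Fin.succ ⟨0, hN⟩) ^ 2 := by
      rw [X_pow_eq_monomial]
      have hm : m1 ∈ (Finset.univ : Finset (Fin (N + 1))).finsuppAntidiag (d i₁) := by
        rw [mem_expo, h₁]; exact Finsupp.degree_single _ _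
      rw [form, Finset.sum_eq_single (⟨m1, hm⟩ : Expo (N + 1) (d i₁))]
      · simp [a, m1, hne.symm]
      · intro j _ hj
        have : j.1 ≠ m1 := fun h => hj (Subtype.ext h)
        simp [a, this, hne.symm]
      · intro h; exact absurd (Finset.mem_univ _) h
    have h2 := hspec a
    rw [hzero, map_zero, hf0, hf1] at h2
    have h3 : res2 (X 0 ^ 2 : MvPolynomial (Fin (N + 1)) k) (X (Fin.succ ⟨0, hN⟩) ^ 2) =
        (X ⟨0, hN⟩ ^ 2) ^ 2 := by
      have c0 : ∀ j, cf (X 0 ^ 2 : MvPolynomial (Fin (N + 1)) k) j = if j = 2 then 1 else 0 := by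
        intro j
        rw [cf, map_pow, finSuccEquiv_X_zero, Polynomial.coeff_X_pow]
      have c1 : ∀ j, cf (X (Fin.succ ⟨0, hN⟩) ^ 2 : MvPolynomial (Fin (N + 1)) k) j =
          if j = 0 then X ⟨0, hN⟩ ^ 2 else 0 := by
        intro j
        rw [cf, map_pow, finSuccEquiv_X_succ, ← Polynomial.C_pow, Polynomial.coeff_C]
      rw [res2]
      simp only [c0, c1]
      norm_num
    rw [h3] at h2
    exact pow_ne_zero 2 (pow_ne_zero 2 (X_ne_zero _)) h2
  obtain ⟨m, hm⟩ : ∃ m, coeff m Res ≠ 0 := by
    by_contra hcon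
    push Not at hcon
    exact hRes (by ext1 m; rw [hcon m, coeff_zero])
  obtain ⟨a, ha⟩ : ∃ a, MvPolynomial.eval a (Φ * coeff m Res) ≠ 0 := by
    by_contra hcon
    push Not at hcon
    exact mul_ne_zero hΦ hm (MvPolynomial.funext (by simpa using hcon))
  rw [map_mul] at ha
  rw [← hΦG a (left_ne_zero_of_mul ha)]
  apply not_isLexsegment_lexInitialIdeal a hne h₀ h₁
  · rw [hspec a]
    intro h
    apply right_ne_zero_of_mul ha
    rw [← coeff_map, h, coeff_zero]
  · rw [card_genIdx, card_expo]
    exact hd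

/-- The literal negation of the statement of Q1, deduced from `result` with `n = 4`, `s = 3`,
degrees `2, 2, 4` (this works over every infinite field; here over the rational numbers). -/
theorem question_has_negative_answer :
    ¬ ∀ (k : Type) [Field k] [Infinite k] (n s : ℕ) (d : Fin s → ℕ), n ≤ s + 1 →
      (∀ i, 0 < d i) → ∀ G : Ideal (MvPolynomial (Fin n) k),
        IsGenericLexInitialIdeal d G → IsLexsegment G := by
  intro h
  obtain ⟨G, hG, -, hG'⟩ := result ℚ 4 3 le_rfl ![2, 2, 4] 0 1 (by decide) rfl rfl (by decide)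
  exact hG' (h ℚ 4 3 ![2, 2, 4] (by norm_num) (by decide) G hG)

end Pool.Agent.Results.MP_48c274_ag.GenericLexNotLexsegment
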